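import Pool.Agent.X18.HadSum2

set_option autoImplicit false

/-!
Half of a Hadamard matrix in every large order divisible by four.

For every `A` and every large `n` divisible by `4` there are sign matrices `P`, `Q` with `n` columns
and `m` rows, where `n - 2 m ≤ n / (log n) ^ A`, such that all rows of `P` are orthogonal, all rows
of `Q` are orthogonal, and `P Qᵀ = (2 m - n) I`. So `P` alone is half of a Hadamard matrix, and in the
`2 m` rows of `P` and `Q` together every row is orthogonal to all others but one.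
-/

namespace Pool.Agent.Results.MP_d8b1b3_co.HalfHadamard

open Matrix

theorem result : ∀ A : ℕ, ∃ n₀ : ℕ, ∀ n : ℕ, n₀ ≤ n → 4 ∣ n →
    ∃ (m : ℕ) (P Q : Matrix (Fin m) (Fin n) ℤ), 2 * m ≤ n ∧
      (n : ℝ) - 2 * m ≤ n / Real.log n ^ A ∧
      (∀ i j, P i j = 1 ∨ P i j = -1) ∧ (∀ i j, Q i j = 1 ∨ Q i j = -1) ∧
      P * Pᵀ = (n : ℤ) • (1 : Matrix (Fin m) (Fin m) ℤ) ∧
      Q * Qᵀ = (n : ℤ) • (1 : Matrix (Fin m) (Fin m) ℤ) ∧
      P * Qᵀ = (2 * (m : ℤ) - n) • (1 : Matrix (Fin m) (Fin m) ℤ) := by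
  intro A
  obtain ⟨n₀, h⟩ := Pool.Agent.X18.HadSum.half (A + 1) (by omega)
  refine ⟨max n₀ 16, fun n hn h4 => ?_⟩
  obtain ⟨a, b, rfl, hab, ha, hb, hd⟩ := h n ((le_max_left _ _).trans hn) h4
  obtain ⟨P, Q, h1, h2, h3, h5, h6⟩ := Pool.Agent.X18.HadSum.side2 ha hb hab
  refine ⟨a, P, Q, by omega, ?_, h1, h2, h3, h5, ?_⟩
  · have hn16 : (16 : ℝ) ≤ ((a + b : ℕ) : ℝ) := by
      exact_mod_cast (le_max_right _ _).trans hn
    have hL : 1 ≤ Real.log ((a + b : ℕ) : ℝ) := by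
      have h7 : Real.log 16 ≤ Real.log ((a + b : ℕ) : ℝ) := Real.log_le_log (by norm_num) hn16
      have h8 : Real.log 16 = 4 * Real.log 2 := by
        rw [show (16 : ℝ) = 2 ^ 4 by norm_num, Real.log_pow]; norm_num
      have := Real.log_two_gt_d9
      linarith
    have h9 : ((a + b : ℕ) : ℝ) / Real.log ((a + b : ℕ) : ℝ) ^ (A + 1) ≤
        ((a + b : ℕ) : ℝ) / Real.log ((a + b : ℕ) : ℝ) ^ A :=
      div_le_div_of_nonneg_left (by linarith) (by positivity) (pow_le_pow_right₀ hL (by omega))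
    refine le_trans ?_ (hd.trans h9)
    push_cast
    linarith
  · rw [h6]
    congr 1
    push_cast
    ring

end Pool.Agent.Results.MP_d8b1b3_co.HalfHadamard
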