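import Pool.Agent.X18.HadTwin

set_option autoImplicit false

/-!
Every multiple of four is a difference of two Hadamard orders in many ways, uniformly.
-/

namespace Pool.Agent.Results.MP_d8b1b3_co.OrderDifferences

open Matrix

/-- there is a Hadamard matrix of order `n` -/
def HadamardOrder (n : ℕ) : Prop :=
  ∃ H : Matrix (Fin n) (Fin n) ℤ, (∀ i j, H i j = 1 ∨ H i j = -1) ∧
    H * Hᵀ = (n : ℤ) • (1 : Matrix (Fin n) (Fin n) ℤ)

theorem result : ∃ C x₀ : ℕ, ∀ x k h : ℕ, x₀ ≤ x → x ≤ (fun y : ℕ => 2 ^ y)^[k] 1 → 4 ∣ h → h ≤ x →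
    (x : ℝ) / (2 ^ (C ^ (k + 1)) * Real.log x) ≤
      ({n : ℕ | 0 < n ∧ n ≤ x ∧ HadamardOrder n ∧ HadamardOrder (n + h)}.ncard : ℝ) := by
  obtain ⟨C, x₀, H⟩ := Pool.Agent.X18.HadSum.twins
  refine ⟨C, x₀, fun x k h hx hk h4 hhx => ?_⟩
  obtain ⟨S, hS, hSS⟩ := H x k h hx hk h4 hhx
  refine hS.trans ?_
  have hfin : {n : ℕ | 0 < n ∧ n ≤ x ∧ HadamardOrder n ∧ HadamardOrder (n + h)}.Finite :=
    (Set.finite_Iic x).subset fun n hn => hn.2.1
  have h1 : S.card ≤ {n : ℕ | 0 < n ∧ n ≤ x ∧ HadamardOrder n ∧ HadamardOrder (n + h)}.ncard := by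
    rw [← Set.ncard_coe_finset]
    exact Set.ncard_le_ncard (fun n hn => hSS n (Finset.mem_coe.1 hn)) hfin
  exact_mod_cast h1

end Pool.Agent.Results.MP_d8b1b3_co.OrderDifferences
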