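import Pool.Agent.X18.HadG2

set_option autoImplicit false

/-!
Hadamard matrices with a prescribed solvable group of automorphisms acting semiregularly.

For a finite solvable group `G` and all `t ≥ C ^ (k + 1) * Ω(|G|)`, where the primes dividing `|G|`
are at most the tower `2 ^ 2 ^ ⋯ ^ 2` with `k` twos and `Ω` counts prime factors with multiplicity,
there is a Hadamard matrix of order `2 ^ t * |G|` consisting of `2 ^ t × 2 ^ t` blocks, every one of
which is developed modulo the group `G`.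
-/

namespace Pool.Agent.Results.MP_d8b1b3_co.SemiregularSolvable

open Matrix

theorem result : ∃ C : ℕ, ∀ (G : Type) [Group G] [Fintype G] [DecidableEq G] [Group.IsSolvable G]
    (k t : ℕ), (∀ p : ℕ, p.Prime → p ∣ Fintype.card G → p ≤ (fun x : ℕ => 2 ^ x)^[k] 1) →
    C ^ (k + 1) * ArithmeticFunction.cardFactors (Fintype.card G) ≤ t →
    ∃ H : Matrix (Fin (2 ^ t) × G) (Fin (2 ^ t) × G) ℤ, (∀ a b, H a b = 1 ∨ H a b = -1) ∧
      H * Hᵀ = ((2 ^ t * Fintype.card G : ℕ) : ℤ) •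
        (1 : Matrix (Fin (2 ^ t) × G) (Fin (2 ^ t) × G) ℤ) ∧
      ∀ (g x y : G) (i j : Fin (2 ^ t)), H (i, g * x) (j, g * y) = H (i, x) (j, y) := by
  obtain ⟨C, _, h⟩ := Pool.Agent.W851.Had.main_pu
  refine ⟨C, ?_⟩
  intro G _ _ _ _ k t hp ht
  obtain ⟨s, rfl⟩ := Nat.exists_eq_add_of_le' ht
  have h1 := Pool.Agent.X18.HadG.solvable_ind (C ^ (k + 1)) (Fintype.card G) G rfl
    (fun p hpp hpd => h k p _ (hp p hpp hpd) le_rfl) s
  obtain ⟨H, hH1, hH2, hH3⟩ := Pool.Agent.X18.HadG.matrix_of h1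
  refine ⟨H, hH1, ?_, hH3⟩
  rw [Fintype.card_fin] at hH2
  exact hH2

end Pool.Agent.Results.MP_d8b1b3_co.SemiregularSolvable
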