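import Pool.Agent.X18.HadSum3

set_option autoImplicit false

/-!
Every large multiple of four is the sum of two Hadamard orders, the smaller of which is at most
`2 ^ C ^ (1 + log* n)`.
-/

namespace Pool.Agent.Results.MP_d8b1b3_co.TwoHadamardOrders

open Matrix

/-- there is a Hadamard matrix of order `n` -/
def HadamardOrder (n : ℕ) : Prop :=
  ∃ H : Matrix (Fin n) (Fin n) ℤ, (∀ i j, H i j = 1 ∨ H i j = -1) ∧
    H * Hᵀ = (n : ℤ) • (1 : Matrix (Fin n) (Fin n) ℤ)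

theorem result : ∃ C N : ℕ, ∀ n k : ℕ, N ≤ n → 4 ∣ n → n ≤ (fun x : ℕ => 2 ^ x)^[k] 1 →
    ∃ a b : ℕ, 0 < a ∧ 0 < b ∧ a + b = n ∧ HadamardOrder a ∧ HadamardOrder b ∧
      a ≤ 2 ^ (C ^ (k + 1)) :=
  Pool.Agent.X18.HadSum.two_orders

end Pool.Agent.Results.MP_d8b1b3_co.TwoHadamardOrders
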